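import Mathlib

set_option autoImplicit false

namespace Pool.Agent.Results.MP_c2f3ae_co.No

section Defs

variable {V E : Type}

/-- perfect matching of the multigraph with end map `ends` -/
def IsPM (ends : E → Sym2 V) (M : Set E) : Prop :=
  ∀ v : V, ∃! e, e ∈ M ∧ v ∈ ends e

def Conn (ends : E → Sym2 V) : Prop :=
  ∀ u v : V, Relation.ReflTransGen (fun a b => ∃ e, ends e = s(a, b)) u v

def MatchingCovered (ends : E → Sym2 V) : Prop :=
  Nontrivial V ∧ Conn ends ∧ ∀ e, ∃ M, IsPM ends M ∧ e ∈ M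

def cut (ends : E → Sym2 V) (X : Set V) : Set E :=
  {e | ∃ u v, u ∈ X ∧ v ∉ X ∧ ends e = s(u, v)}

def Tight (ends : E → Sym2 V) (X : Set V) : Prop :=
  ∀ M, IsPM ends M → ∃! e, e ∈ M ∧ e ∈ cut ends X

open Classical in
/-- the contraction shrinking `X` to the single vertex `none`, loops deleted -/
noncomputable def shrink (ends : E → Sym2 V) (X : Set V) :
    {e : E // ¬ ∀ v ∈ ends e, v ∈ X} → Sym2 (Option {v : V // v ∉ X}) :=
  fun e => (ends e.1).map (fun v => if h : v ∈ X then none else some ⟨v, h⟩)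

def Separating (ends : E → Sym2 V) (X : Set V) : Prop :=
  MatchingCovered (shrink ends X) ∧ MatchingCovered (shrink ends Xᶜ)

def Bipartite (ends : E → Sym2 V) : Prop :=
  ∃ c : V → Bool, ∀ e u v, ends e = s(u, v) → c u ≠ c v

def Brick (ends : E → Sym2 V) : Prop :=
  ¬ Bipartite ends ∧ MatchingCovered ends ∧
    ∀ X : Set V, Odd X.ncard → X.ncard ≠ 1 → Xᶜ.ncard ≠ 1 → ¬ Tight ends X

def Solid (ends : E → Sym2 V) : Prop :=
  MatchingCovered ends ∧ ∀ X : Set V, Odd X.ncard → Separating ends X → Tight ends X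

end Defs

section General

variable {V E : Type}

lemma cut_compl (ends : E → Sym2 V) (X : Set V) : cut ends Xᶜ = cut ends X := by
  ext e
  simp only [cut, Set.mem_ofPred_eq, Set.mem_compl_iff, not_not]
  constructor
  · rintro ⟨u, v, hu, hv, h⟩
    exact ⟨v, u, hv, hu, by rw [h, Sym2.eq_swap]⟩
  · rintro ⟨u, v, hu, hv, h⟩
    exact ⟨v, u, hv, hu, by rw [h, Sym2.eq_swap]⟩

lemma mem_cut (ends : E → Sym2 V) (X : Set V) (e : E) :
    e ∈ cut ends X ↔ (∃ u ∈ ends e, u ∈ X) ∧ ¬ ∀ v ∈ ends e, v ∈ X := by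
  simp only [cut, Set.mem_ofPred_eq]
  induction' h : ends e using Sym2.ind with a b
  constructor
  · rintro ⟨u, v, hu, hv, h'⟩
    rw [h']
    exact ⟨⟨u, by simp, hu⟩, fun hh => hv (hh v (by simp))⟩
  · rintro ⟨⟨u, hu, huX⟩, hn⟩
    by_cases ha : a ∈ X
    · by_cases hb : b ∈ X
      · exfalso
        apply hn
        intro v hv
        rcases Sym2.mem_iff.1 hv with rfl | rfl <;> assumption
      · exact ⟨a, b, ha, hb, rfl⟩
    · rcases Sym2.mem_iff.1 hu with rfl | rfl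
      · exact absurd huX ha
      · exact ⟨u, a, huX, ha, Sym2.eq_swap⟩

/-- half matching: covers the complement of `X` once and uses exactly one cut edge -/
def Half (ends : E → Sym2 V) (X : Set V) (N : Set E) : Prop :=
  (∀ e ∈ N, ¬ ∀ v ∈ ends e, v ∈ X) ∧ (∀ v, v ∉ X → ∃! e, e ∈ N ∧ v ∈ ends e) ∧
    ∃! e, e ∈ N ∧ e ∈ cut ends X

lemma half_of (ends : E → Sym2 V) (X : Set V) (h : MatchingCovered (shrink ends X))
    (e : E) (he : ¬ ∀ v ∈ ends e, v ∈ X) : ∃ N, Half ends X N ∧ e ∈ N := by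
  classical
  obtain ⟨M, hM, heM⟩ := h.2.2 ⟨e, he⟩
  refine ⟨Subtype.val '' M, ⟨?_, ?_, ?_⟩, ⟨_, heM, rfl⟩⟩
  · rintro _ ⟨f, _, rfl⟩
    exact f.2
  · intro v hv
    have hs : ∀ f : {e : E // ¬ ∀ v ∈ ends e, v ∈ X},
        some ⟨v, hv⟩ ∈ shrink ends X f ↔ v ∈ ends f.1 := by
      intro f
      simp only [shrink, Sym2.mem_map]
      constructor
      · rintro ⟨a, ha, h2⟩
        by_cases hX : a ∈ X
        · simp [hX] at h2
        · simp only [hX, dite_false, Option.some.injEq, Subtype.mk.injEq] at h2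
          exact h2 ▸ ha
      · intro h2
        exact ⟨v, h2, by simp [hv]⟩
    obtain ⟨f, ⟨hf1, hf2⟩, hu⟩ := hM (some ⟨v, hv⟩)
    refine ⟨f.1, ⟨⟨f, hf1, rfl⟩, (hs f).1 hf2⟩, ?_⟩
    rintro _ ⟨⟨g, hg, rfl⟩, hg2⟩
    rw [hu g ⟨hg, (hs g).2 hg2⟩]
  · have hs : ∀ f : {e : E // ¬ ∀ v ∈ ends e, v ∈ X},
        none ∈ shrink ends X f ↔ f.1 ∈ cut ends X := by
      intro f
      rw [mem_cut]
      simp only [shrink, Sym2.mem_map]
      constructor
      · rintro ⟨a, ha, h2⟩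
        by_cases hX : a ∈ X
        · exact ⟨⟨a, ha, hX⟩, f.2⟩
        · simp [hX] at h2
      · rintro ⟨⟨u, hu, hX⟩, _⟩
        exact ⟨u, hu, by simp [hX]⟩
    obtain ⟨f, ⟨hf1, hf2⟩, hu⟩ := hM none
    refine ⟨f.1, ⟨⟨f, hf1, rfl⟩, (hs f).1 hf2⟩, ?_⟩
    rintro _ ⟨⟨g, hg, rfl⟩, hg2⟩
    rw [hu g ⟨hg, (hs g).2 hg2⟩]

lemma side (ends : E → Sym2 V) (X : Set V) (N1 N2 : Set E) (h1 : Half ends X N1)
    (h2 : Half ends Xᶜ N2) (c : E) (hc1 : c ∈ N1) (hc2 : c ∈ N2) (hc : c ∈ cut ends X)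
    (v : V) (hv : v ∉ X) : ∃! e, e ∈ N1 ∪ N2 ∧ v ∈ ends e := by
  obtain ⟨e, ⟨he1, he2⟩, hu⟩ := h1.2.1 v hv
  refine ⟨e, ⟨Or.inl he1, he2⟩, ?_⟩
  rintro g ⟨hg | hg, hg2⟩
  · exact hu g ⟨hg, hg2⟩
  · have hgc : g ∈ cut ends Xᶜ := (mem_cut _ _ _).2 ⟨⟨v, hg2, hv⟩, h2.1 g hg⟩
    have : g = c := h2.2.2.unique ⟨hg, hgc⟩ ⟨hc2, by rwa [cut_compl]⟩
    exact hu g ⟨this ▸ hc1, hg2⟩

lemma glue (ends : E → Sym2 V) (X : Set V) (N1 N2 : Set E) (h1 : Half ends X N1)
    (h2 : Half ends Xᶜ N2) (c : E) (hc1 : c ∈ N1) (hc2 : c ∈ N2) (hc : c ∈ cut ends X) :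
    IsPM ends (N1 ∪ N2) ∧ ∃! e, e ∈ N1 ∪ N2 ∧ e ∈ cut ends X := by
  constructor
  · intro v
    by_cases hv : v ∈ X
    · rw [Set.union_comm]
      exact side ends Xᶜ N2 N1 h2 (by rwa [compl_compl]) c hc2 hc1 (by rwa [cut_compl]) v
        (by simpa using hv)
    · exact side ends X N1 N2 h1 h2 c hc1 hc2 hc v hv
  · refine ⟨c, ⟨Or.inl hc1, hc⟩, ?_⟩
    rintro g ⟨hg | hg, hg2⟩
    · exact h1.2.2.unique ⟨hg, hg2⟩ ⟨hc1, hc⟩
    · exact h2.2.2.unique ⟨hg, by rwa [cut_compl]⟩ ⟨hc2, by rwa [cut_compl]⟩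

lemma sep_aux (ends : E → Sym2 V) (X : Set V) (h1 : MatchingCovered (shrink ends X))
    (h2 : MatchingCovered (shrink ends Xᶜ)) (e : E) (he : ¬ ∀ v ∈ ends e, v ∈ X) :
    ∃ M, IsPM ends M ∧ e ∈ M ∧ ∃! f, f ∈ M ∧ f ∈ cut ends X := by
  obtain ⟨N1, hN1, he1⟩ := half_of ends X h1 e he
  obtain ⟨c, ⟨hc1, hc⟩, _⟩ := hN1.2.2
  have hc' : ¬ ∀ v ∈ ends c, v ∈ Xᶜ := ((mem_cut _ _ _).1 (by rwa [cut_compl])).2
  obtain ⟨N2, hN2, hc2⟩ := half_of ends Xᶜ h2 c hc'
  obtain ⟨a, b⟩ := glue ends X N1 N2 hN1 hN2 c hc1 hc2 hc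
  exact ⟨_, a, Or.inl he1, b⟩

lemma sep_imp (ends : E → Sym2 V) (X : Set V) (h : Separating ends X) (e : E) :
    ∃ M, IsPM ends M ∧ e ∈ M ∧ ∃! f, f ∈ M ∧ f ∈ cut ends X := by
  by_cases he : ∀ v ∈ ends e, v ∈ X
  · have he' : ¬ ∀ v ∈ ends e, v ∈ Xᶜ := by
      intro hh
      obtain ⟨a, ha⟩ : ∃ a, a ∈ ends e := ⟨(ends e).out.1, Sym2.out_fst_mem _⟩
      exact hh a ha (he a ha)
    have := sep_aux ends Xᶜ h.2 (by rw [compl_compl]; exact h.1) e he'
    rwa [cut_compl] at this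
  · exact sep_aux ends X h.1 h.2 e he

end General

section Example

def A : Fin 18 → Fin 12 := ![0, 0, 0, 1, 1, 2, 2, 3, 3, 3, 4, 4, 5, 5, 6, 6, 7, 10]
def B : Fin 18 → Fin 12 := ![1, 2, 10, 7, 8, 5, 6, 4, 8, 9, 7, 11, 8, 10, 9, 11, 9, 11]
def en (e : Fin 18) : Sym2 (Fin 12) := s(A e, B e)

def pms : List (List (Fin 18)) :=
  [[0, 5, 8, 10, 14, 17], [0, 6, 7, 12, 16, 17], [0, 6, 8, 11, 13, 16], [0, 6, 9, 10, 12, 17],
    [1, 3, 7, 12, 14, 17], [1, 3, 8, 11, 13, 14], [1, 4, 7, 13, 15, 16], [1, 4, 9, 10, 13, 15],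
    [2, 3, 5, 8, 11, 14], [2, 3, 6, 9, 11, 12], [2, 4, 5, 7, 15, 16], [2, 4, 5, 9, 10, 15]]

def one (a b c : Bool) : Bool := (a && !b && !c) || (!a && b && !c) || (!a && !b && c)

set_option synthInstance.maxSize 4000 in
lemma pm_enum : ∀ b0 b1 b2 : Bool, one b0 b1 b2 = true → ∀ b3 b4 : Bool, one b0 b3 b4 = true →
    ∀ b5 b6 : Bool, one b1 b5 b6 = true → ∀ b7 b8 b9 : Bool, one b7 b8 b9 = true →
    ∀ b10 b11 : Bool, one b7 b10 b11 = true → ∀ b12 b13 : Bool, one b5 b12 b13 = true →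
    ∀ b14 b15 : Bool, one b6 b14 b15 = true → ∀ b16 : Bool, one b3 b10 b16 = true →
    one b4 b8 b12 = true → one b9 b14 b16 = true → ∀ b17 : Bool, one b2 b13 b17 = true →
    one b11 b15 b17 = true → (pms.any fun l => (List.finRange 18).all fun e =>
      (![b0, b1, b2, b3, b4, b5, b6, b7, b8, b9, b10, b11, b12, b13, b14, b15, b16, b17] e ==
        l.contains e)) = true := by
  decide +kernel

lemma one_of (M : Set (Fin 18)) [DecidablePred (· ∈ M)] (hM : IsPM en M) (v : Fin 12)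
    (a b c : Fin 18) (hab : a ≠ b) (hac : a ≠ c) (hbc : b ≠ c)
    (h : ∀ e, v ∈ en e ↔ e = a ∨ e = b ∨ e = c) :
    one (decide (a ∈ M)) (decide (b ∈ M)) (decide (c ∈ M)) = true := by
  obtain ⟨e, ⟨he1, he2⟩, hu⟩ := hM v
  have ha := fun h1 => hu a ⟨h1, (h a).2 (Or.inl rfl)⟩
  have hb := fun h1 => hu b ⟨h1, (h b).2 (Or.inr (Or.inl rfl))⟩
  have hc := fun h1 => hu c ⟨h1, (h c).2 (Or.inr (Or.inr rfl))⟩
  rcases (h e).1 he2 with rfl | rfl | rfl
  · have h2 : b ∉ M := fun h1 => hab (hb h1).symm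
    have h3 : c ∉ M := fun h1 => hac (hc h1).symm
    simp [one, he1, h2, h3]
  · have h2 : a ∉ M := fun h1 => hab (ha h1)
    have h3 : c ∉ M := fun h1 => hbc (hc h1).symm
    simp [one, he1, h2, h3]
  · have h2 : a ∉ M := fun h1 => hac (ha h1)
    have h3 : b ∉ M := fun h1 => hbc (hb h1)
    simp [one, he1, h2, h3]

lemma pm_list (M : Set (Fin 18)) (hM : IsPM en M) : ∃ l ∈ pms, ∀ e, e ∈ M ↔ e ∈ l := by
  classical
  have key := pm_enum _ _ _
    (one_of M hM 0 0 1 2 (by decide) (by decide) (by decide) (by decide +kernel)) _ _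
    (one_of M hM 1 0 3 4 (by decide) (by decide) (by decide) (by decide +kernel)) _ _
    (one_of M hM 2 1 5 6 (by decide) (by decide) (by decide) (by decide +kernel)) _ _ _
    (one_of M hM 3 7 8 9 (by decide) (by decide) (by decide) (by decide +kernel)) _ _
    (one_of M hM 4 7 10 11 (by decide) (by decide) (by decide) (by decide +kernel)) _ _
    (one_of M hM 5 5 12 13 (by decide) (by decide) (by decide) (by decide +kernel)) _ _
    (one_of M hM 6 6 14 15 (by decide) (by decide) (by decide) (by decide +kernel)) _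
    (one_of M hM 7 3 10 16 (by decide) (by decide) (by decide) (by decide +kernel))
    (one_of M hM 8 4 8 12 (by decide) (by decide) (by decide) (by decide +kernel))
    (one_of M hM 9 9 14 16 (by decide) (by decide) (by decide) (by decide +kernel)) _
    (one_of M hM 10 2 13 17 (by decide) (by decide) (by decide) (by decide +kernel))
    (one_of M hM 11 11 15 17 (by decide) (by decide) (by decide) (by decide +kernel))
  obtain ⟨l, hl, h⟩ := List.any_eq_true.1 key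
  refine ⟨l, hl, fun e => ?_⟩
  have h2 := List.all_eq_true.1 h e (List.mem_finRange e)
  have h3 : (![decide (0 ∈ M), decide (1 ∈ M), decide (2 ∈ M), decide (3 ∈ M), decide (4 ∈ M),
      decide (5 ∈ M), decide (6 ∈ M), decide (7 ∈ M), decide (8 ∈ M), decide (9 ∈ M),
      decide (10 ∈ M), decide (11 ∈ M), decide (12 ∈ M), decide (13 ∈ M), decide (14 ∈ M),
      decide (15 ∈ M), decide (16 ∈ M), decide (17 ∈ M)] : Fin 18 → Bool) e =
      decide (e ∈ M) := by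
    fin_cases e <;> rfl
  rw [h3] at h2
  simp only [beq_iff_eq] at h2
  rw [← List.contains_iff_mem, ← h2]
  simp

lemma pm_ok : ∀ l ∈ pms, ∀ v : Fin 12, ∃ e, (e ∈ l ∧ v ∈ en e) ∧
    ∀ f, (f ∈ l ∧ v ∈ en f) → f = e := by
  decide +kernel

lemma pm_isPM (l : List (Fin 18)) (hl : l ∈ pms) : IsPM en {e | e ∈ l} :=
  fun v => pm_ok l hl v

lemma pm_nodup : ∀ l ∈ pms, l.Nodup := by decide +kernel

def cc (x : Fin 12 → Bool) (l : List (Fin 18)) : Bool :=
  (l.filter fun e => x (A e) != x (B e)).length == 1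

def sz (x : Fin 12 → Bool) : Nat := ((List.finRange 12).filter x).length

def chk (x : Fin 12 → Bool) : Bool :=
  sz x % 2 == 0 || (if sz x == 1 || sz x == 11 then pms.all (cc x) else
    (List.finRange 18).any fun e => (pms.filter (cc x)).all fun l => !l.contains e)

lemma chk_enum : ∀ b0 b1 b2 b3 b4 b5 b6 b7 b8 b9 b10 b11 : Bool,
    chk ![b0, b1, b2, b3, b4, b5, b6, b7, b8, b9, b10, b11] = true := by
  decide +kernel

lemma chk_all (x : Fin 12 → Bool) : chk x = true := by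
  have := chk_enum (x 0) (x 1) (x 2) (x 3) (x 4) (x 5) (x 6) (x 7) (x 8) (x 9) (x 10) (x 11)
  have h : ![x 0, x 1, x 2, x 3, x 4, x 5, x 6, x 7, x 8, x 9, x 10, x 11] = x := by
    funext i
    fin_cases i <;> rfl
  rwa [h] at this

lemma cut_iff (X : Set (Fin 12)) [DecidablePred (· ∈ X)] (e : Fin 18) :
    e ∈ cut en X ↔ (decide (A e ∈ X) != decide (B e ∈ X)) = true := by
  rw [mem_cut]
  simp only [en, Sym2.mem_iff]
  by_cases ha : A e ∈ X <;> by_cases hb : B e ∈ X <;> simp [ha, hb]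

lemma cc_iff (X : Set (Fin 12)) [DecidablePred (· ∈ X)] (M : Set (Fin 18)) (l : List (Fin 18))
    (hl : l ∈ pms) (hM : ∀ e, e ∈ M ↔ e ∈ l) :
    (∃! f, f ∈ M ∧ f ∈ cut en X) ↔ cc (fun v => decide (v ∈ X)) l = true := by
  have hn := (pm_nodup l hl).filter (fun e => decide (A e ∈ X) != decide (B e ∈ X))
  have hm : ∀ f, (f ∈ M ∧ f ∈ cut en X) ↔
      f ∈ l.filter (fun e => decide (A e ∈ X) != decide (B e ∈ X)) := by
    intro f
    rw [List.mem_filter, hM, cut_iff]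
  simp only [hm, cc, beq_iff_eq]
  generalize l.filter (fun e => decide (A e ∈ X) != decide (B e ∈ X)) = k at hn
  constructor
  · rintro ⟨f, hf, hu⟩
    match k, hn, hf, hu with
    | [], _, hf, _ => simp at hf
    | [a], _, _, _ => rfl
    | a :: b :: t, hn, _, hu =>
      have h1 := hu a (by simp)
      have h2 := hu b (by simp)
      simp [h1, h2] at hn
  · intro h
    obtain ⟨a, rfl⟩ := List.length_eq_one_iff.1 h
    exact ⟨a, by simp, by simp⟩

lemma sz_eq (X : Set (Fin 12)) [DecidablePred (· ∈ X)] :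
    X.ncard = sz (fun v => decide (v ∈ X)) := by
  have hn := (List.nodup_finRange 12).filter (fun v => decide (v ∈ X))
  rw [sz, ← List.toFinset_card_of_nodup hn, ← Set.ncard_coe_finset]
  congr 1
  ext v
  simp

lemma compl_card (X : Set (Fin 12)) : X.ncard + Xᶜ.ncard = 12 := by
  rw [Set.ncard_add_ncard_compl]
  simp

lemma cover : ∀ e : Fin 18, ∃ l ∈ pms, e ∈ l := by decide +kernel

lemma nontriv (X : Set (Fin 12)) (h1 : Odd X.ncard) (h2 : X.ncard ≠ 1) (h3 : Xᶜ.ncard ≠ 1) :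
    ∃ e, ∀ M, IsPM en M → e ∈ M → ¬ ∃! f, f ∈ M ∧ f ∈ cut en X := by
  classical
  have hk := chk_all (fun v => decide (v ∈ X))
  have hc := compl_card X
  have h1' := Nat.odd_iff.1 h1
  have h4 : X.ncard ≠ 11 := by omega
  rw [chk, ← sz_eq] at hk
  simp only [h1', h2, h4, Bool.or_eq_true, beq_iff_eq, one_ne_zero, false_or, or_self, if_false,
    List.any_eq_true, List.all_eq_true, List.mem_filter] at hk
  obtain ⟨e, _, he⟩ := hk
  refine ⟨e, fun M hM heM hu => ?_⟩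
  obtain ⟨l, hl, hlM⟩ := pm_list M hM
  have := he l ⟨hl, (cc_iff X M l hl hlM).1 hu⟩
  simp [(hlM e).1 heM] at this

lemma triv (X : Set (Fin 12)) (h2 : X.ncard = 1 ∨ Xᶜ.ncard = 1) : Tight en X := by
  classical
  have hk := chk_all (fun v => decide (v ∈ X))
  have hc := compl_card X
  have h1' : X.ncard % 2 = 1 := by omega
  have h4 : X.ncard = 1 ∨ X.ncard = 11 := by omega
  rw [chk, ← sz_eq] at hk
  simp only [h1', h4, Bool.or_eq_true, beq_iff_eq, one_ne_zero, false_or, if_true,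
    List.all_eq_true] at hk
  intro M hM
  obtain ⟨l, hl, hlM⟩ := pm_list M hM
  exact (cc_iff X M l hl hlM).2 (hk l hl)

lemma conn0 (v : Fin 12) :
    Relation.ReflTransGen (fun a b => ∃ e, en e = s(a, b)) 0 v := by
  have st : ∀ (a b : Fin 12) (e : Fin 18), en e = s(a, b) →
      Relation.ReflTransGen (fun a b => ∃ e, en e = s(a, b)) 0 a →
      Relation.ReflTransGen (fun a b => ∃ e, en e = s(a, b)) 0 b :=
    fun a b e h1 h2 => h2.tail ⟨e, h1⟩
  have h0 : Relation.ReflTransGen (fun a b : Fin 12 => ∃ e, en e = s(a, b)) 0 0 := .refl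
  have h1 := st 0 1 0 (by decide) h0
  have h2 := st 0 2 1 (by decide) h0
  have h10 := st 0 10 2 (by decide) h0
  have h7 := st 1 7 3 (by decide) h1
  have h8 := st 1 8 4 (by decide) h1
  have h5 := st 2 5 5 (by decide) h2
  have h6 := st 2 6 6 (by decide) h2
  have h3 := st 8 3 8 (by decide) h8
  have h4 := st 3 4 7 (by decide) h3
  have h9 := st 3 9 9 (by decide) h3
  have h11 := st 4 11 11 (by decide) h4
  fin_cases v <;> assumption

lemma mc : MatchingCovered en := by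
  refine ⟨inferInstance, fun u v => ?_, fun e => ?_⟩
  · refine Relation.ReflTransGen.trans ?_ (conn0 v)
    have h := conn0 u
    induction h with
    | refl => exact .refl
    | tail _ h2 ih =>
      obtain ⟨e, h2⟩ := h2
      exact .head ⟨e, by rw [h2, Sym2.eq_swap]⟩ ih
  · obtain ⟨l, hl, he⟩ := cover e
    exact ⟨_, pm_isPM l hl, he⟩

lemma nonbip : ¬ Bipartite en := by
  rintro ⟨c, hc⟩
  have h1 := hc 0 0 1 (by decide)
  have h2 := hc 4 1 8 (by decide)
  have h3 := hc 12 5 8 (by decide)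
  have h4 := hc 13 5 10 (by decide)
  have h5 := hc 2 0 10 (by decide)
  revert h1 h2 h3 h4 h5
  generalize c 0 = a, c 1 = b, c 8 = d, c 5 = f, c 10 = g
  revert a b d f g
  decide

abbrev G0 : SimpleGraph (Fin 12) := SimpleGraph.fromEdgeSet (Set.range en)

lemma adj (a b : Fin 12) (e : Fin 18) (h : en e = s(a, b)) (h2 : a ≠ b) : G0.Adj a b :=
  (SimpleGraph.fromEdgeSet_adj _).2 ⟨⟨e, h⟩, h2⟩

def p1 : G0.Walk 0 0 :=
  .cons (adj 0 1 0 (by decide) (by decide)) <| .cons (adj 1 8 4 (by decide) (by decide)) <|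
  .cons (adj 8 5 12 (by decide) (by decide)) <| .cons (adj 5 10 13 (by decide) (by decide)) <|
  .cons (adj 10 0 2 (by decide) (by decide)) .nil

def p2 : G0.Walk 3 3 :=
  .cons (adj 3 4 7 (by decide) (by decide)) <| .cons (adj 4 11 11 (by decide) (by decide)) <|
  .cons (adj 11 6 15 (by decide) (by decide)) <| .cons (adj 6 9 14 (by decide) (by decide)) <|
  .cons (adj 9 3 9 (by decide) (by decide)) .nil

end Example

theorem result : ∃ ends : Fin 18 → Sym2 (Fin 12),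
    Function.Injective ends ∧ (∀ e, ¬ (ends e).IsDiag) ∧
    (∀ v, {e | v ∈ ends e}.ncard = 3) ∧ Brick ends ∧ Solid ends ∧
    ∃ (u v : Fin 12) (p : (SimpleGraph.fromEdgeSet (Set.range ends)).Walk u u)
      (q : (SimpleGraph.fromEdgeSet (Set.range ends)).Walk v v),
      p.IsCycle ∧ q.IsCycle ∧ Odd p.length ∧ Odd q.length ∧
      ∀ w, w ∈ p.support → w ∉ q.support := by
  refine ⟨en, by decide +kernel, by decide +kernel, fun v => ?_, ⟨nonbip, mc, ?_⟩, ⟨mc, ?_⟩,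
    0, 3, p1, p2, ?_, ?_, by decide, by decide, by decide⟩
  · have : {e | v ∈ en e} = ((Finset.univ.filter fun e => v ∈ en e : Finset (Fin 18)) : Set _) := by
      ext e
      simp
    rw [this, Set.ncard_coe_finset]
    clear this
    revert v
    decide +kernel
  · intro X h1 h2 h3 ht
    obtain ⟨e, he⟩ := nontriv X h1 h2 h3
    obtain ⟨M, hM, heM⟩ := mc.2.2 e
    exact he M hM heM (ht M hM)
  · intro X h1 hs
    by_cases h : X.ncard = 1 ∨ Xᶜ.ncard = 1
    · exact triv X h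
    · rw [not_or] at h
      obtain ⟨e, he⟩ := nontriv X h1 h.1 h.2
      obtain ⟨M, hM, heM, hu⟩ := sep_imp en X hs e
      exact absurd hu (he M hM heM)
  · rw [SimpleGraph.Walk.isCycle_def]
    refine ⟨⟨by decide⟩, by simp [p1], by decide⟩
  · rw [SimpleGraph.Walk.isCycle_def]
    refine ⟨⟨by decide⟩, by simp [p2], by decide⟩

end Pool.Agent.Results.MP_c2f3ae_co.No
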